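import Pool.Agent.Helper42.QC.Defs

/-!
# CV: the valued division ring attached to the data
-/

set_option autoImplicit false

namespace Pool.Agent.Helper42.QC

open Pool.Agent.Helper42.QD

section

variable {K D : Type} [Field K] [DivisionRing D]

theorem cv_Tne (c : CD K D) : c.T ≠ 0 := by
  intro h
  have h1 := c.Tpow
  have h2 := c.d2
  rw [h, zero_pow (by omega)] at h1
  exact c.pine ((map_eq_zero c.emb).1 h1.symm)

theorem cv_iter (c : CD K D) (x : K) (hx : x ∈ c.A) (n : ℕ) : c.sig^[n] x ∈ c.A := by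
  induction n with
  | zero => exact hx
  | succ n ih =>
    rw [Function.iterate_succ_apply']
    exact c.sigA _ ih

theorem cv_sigA (c : CD K D) (x : K) : c.sig x ∈ c.A ↔ x ∈ c.A := by
  constructor
  · intro h
    have h1 := cv_iter c (c.sig x) h (c.d - 1)
    rw [← Function.iterate_succ_apply] at h1
    have h2 := c.d2
    have e : Nat.succ (c.d - 1) = c.d := by omega
    rw [e, c.sigd] at h1
    exact h1
  · exact c.sigA x

theorem cv_ext (c : CD K D) (y z : D) (h : ∀ i, c.co y i = c.co z i) : y = z := by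
  rw [c.co_spec y, c.co_spec z]
  refine Finset.sum_congr rfl fun i _ => ?_
  rw [h i]

theorem cv_central (hCO : ST_CO1) (c : CD K D) (e : ℤ) (y : D) :
    y * c.emb (c.pi ^ e) = c.emb (c.pi ^ e) * y := by
  obtain ⟨-, -, h3, h4, -⟩ := hCO K D c
  refine cv_ext c _ _ fun i => ?_
  rw [h3, h4]
  have h5 : c.sig^[i] (c.pi ^ e) = c.pi ^ e := by
    induction i with
    | zero => rfl
    | succ i ih => rw [Function.iterate_succ_apply', ih, map_zpow₀, c.sigpi]
  rw [h5, mul_comm]

theorem cv_trd_add (hCO : ST_CO1) (c : CD K D) (x y : D) : c.trd (x + y) = c.trd x + c.trd y := by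
  obtain ⟨h1, -⟩ := hCO K D c
  apply Subtype.ext
  change (∑ j ∈ Finset.range c.d, c.sig^[j] (c.co (x + y) 0)) =
    (∑ j ∈ Finset.range c.d, c.sig^[j] (c.co x 0)) + ∑ j ∈ Finset.range c.d, c.sig^[j] (c.co y 0)
  rw [← Finset.sum_add_distrib]
  refine Finset.sum_congr rfl fun j _ => ?_
  rw [h1]
  exact iterate_map_add c.sig j _ _

theorem cv_trd_zero (hCO : ST_CO1) (c : CD K D) : c.trd 0 = 0 := by
  have h := cv_trd_add hCO c 0 0
  rw [add_zero] at h
  exact left_eq_add.1 h

end

theorem st_CV (hCO1 : ST_CO1) (hCO2 : ST_CO2) (hTRC : ST_TRC) (hRES : ST_RES) (hVAL : ST_VAL)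
    (hPSI : ST_PSI) : ST_CV := by
  intro K D _ _ c φ hφ hsm
  obtain ⟨a1, a2, a3, a4, a5, a6, a7, a8, a9⟩ := hCO1 K D c
  obtain ⟨k, _, rK, s, hfin, r1, r2, r3, r4, r5, r6, r7⟩ := hRES K D c
  obtain ⟨v, v1, v2, v3, v4⟩ := hVAL K D c
  obtain ⟨e, p1, p2⟩ := hPSI K D c φ hφ hsm
  have hd := c.d2
  -- integrality
  have hO : ∀ x : D, (x = 0 ∨ 0 ≤ v x) ↔ ∀ i, c.co x i ∈ c.A := by
    intro x
    rw [v4 0 x]
    rw [neg_zero, zpow_zero, one_mul]
  have hP : ∀ x : D, (x = 0 ∨ 1 ≤ v x) ↔ ∀ i, c.co (c.T ^ (-1 : ℤ) * x) i ∈ c.A := fun x => v4 1 x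
  have hTx : ∀ x : D, x = c.T * (c.T ^ (-1 : ℤ) * x) := by
    intro x
    rw [zpow_neg_one, ← mul_assoc, mul_inv_cancel₀ (cv_Tne c), one_mul]
  have hrr : ∀ a b : K, a ∈ c.A → b ∈ c.A → (a - b) / c.pi ∈ c.A → rK a = rK b := by
    intro a b ha hb hab
    have h1 := r1 b hb (a - b) (sub_mem ha hb)
    rw [add_sub_cancel, (r4 (a - b) (sub_mem ha hb)).2 hab, add_zero] at h1
    exact h1
  have hcoemb : ∀ a : K, ∀ i, c.co (c.emb a) i = if i = 0 then a else 0 := by
    intro a i
    have h1 := a5 a 0 i (by omega)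
    rw [pow_zero, mul_one] at h1
    exact h1
  have hPiff : ∀ x : D, (∀ i, c.co x i ∈ c.A) →
      ((∀ i, c.co (c.T ^ (-1 : ℤ) * x) i ∈ c.A) ↔ c.co x 0 / c.pi ∈ c.A) := by
    intro x hx
    have hw := hTx x
    generalize c.T ^ (-1 : ℤ) * x = w at hw
    have h0 : c.co x 0 = c.sig (c.co w (c.d - 1)) * c.pi := by rw [hw, a9]
    have h1 : c.co x 0 / c.pi = c.sig (c.co w (c.d - 1)) := by
      rw [h0, mul_div_assoc, div_self c.pine, mul_one]
    rw [h1, cv_sigA]
    constructor
    · intro h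
      exact h _
    · intro h i
      by_cases hi : i < c.d
      · by_cases hi' : i = c.d - 1
        · rw [hi']; exact h
        · have h2 : c.co x (i + 1) = c.sig (c.co w i) := by rw [hw, a8 w i (by omega)]
          have h3 := hx (i + 1)
          rw [h2, cv_sigA] at h3
          exact h3
      · rw [c.co_zero w i (by omega)]
        exact zero_mem _
  have hpsi0 : c.trd (c.emb (c.pi ^ e) * 0) = 0 := by rw [mul_zero, cv_trd_zero hCO1]
  let psi : AddChar D ℂ :=
    { toFun := fun x => φ (c.trd (c.emb (c.pi ^ e) * x))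
      map_zero_eq_one' := by
        show φ (c.trd (c.emb (c.pi ^ e) * 0)) = 1
        rw [hpsi0]
        exact φ.map_zero_eq_one
      map_add_eq_mul' := by
        intro x y
        show φ (c.trd (c.emb (c.pi ^ e) * (x + y))) =
          φ (c.trd (c.emb (c.pi ^ e) * x)) * φ (c.trd (c.emb (c.pi ^ e) * y))
        rw [mul_add, cv_trd_add hCO1]
        exact φ.map_add_eq_mul _ _ }
  let c' : VD D k :=
    { v := v
      r := fun y => rK (c.co y 0)
      T := c.T
      sg := s
      psi := psi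
      v_mul := v1
      v_add := v2
      T_ne := cv_Tne c
      v_T := v3
      r_add := by
        intro x y hx hy
        show rK (c.co (x + y) 0) = rK (c.co x 0) + rK (c.co y 0)
        rw [a1]
        exact r1 _ ((hO x).1 hx 0) _ ((hO y).1 hy 0)
      r_mul := by
        intro x y hx hy
        show rK (c.co (x * y) 0) = rK (c.co x 0) * rK (c.co y 0)
        have hx' := (hO x).1 hx
        have hy' := (hO y).1 hy
        obtain ⟨h1, h2⟩ := hCO2 K D c x y hx' hy'
        rw [← r2 _ (hx' 0) _ (hy' 0)]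
        exact hrr _ _ (h1 0) (mul_mem (hx' 0) (hy' 0)) h2
      r_one := by
        show rK (c.co 1 0) = 1
        have h1 := hcoemb 1 0
        rw [map_one, if_pos rfl] at h1
        rw [h1]
        exact r3
      r_zero := by
        intro x hx
        show rK (c.co x 0) = 0 ↔ _
        have hx' := (hO x).1 hx
        rw [r4 _ (hx' 0), hP, hPiff x hx']
      r_surj := by
        intro a
        obtain ⟨x, hx, hxa⟩ := r5 a
        refine ⟨c.emb x, (hO _).2 fun i => ?_, ?_⟩
        · rw [hcoemb]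
          split_ifs
          · exact hx
          · exact zero_mem _
        · show rK (c.co (c.emb x) 0) = a
          rw [hcoemb, if_pos rfl]
          exact hxa
      r_T := by
        intro x hx
        show rK (c.co (c.T * x * c.T⁻¹) 0) = s (rK (c.co x 0))
        have hx' := (hO x).1 hx
        have h1 := a6 (c.T * x * c.T⁻¹) 0 (by omega)
        rw [mul_assoc (c.T * x), inv_mul_cancel₀ (cv_Tne c), mul_one, a8 x 0 (by omega)] at h1
        rw [← h1]
        exact r6 _ (hx' 0)
      psi_comm := by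
        intro x y
        show φ (c.trd (c.emb (c.pi ^ e) * (x * y))) = φ (c.trd (c.emb (c.pi ^ e) * (y * x)))
        rw [← mul_assoc, hTRC K D c (c.emb (c.pi ^ e) * x) y, ← mul_assoc, cv_central hCO1 c e y,
          mul_assoc]
      psi_P := by
        intro x hx
        exact p1 x ((hP x).1 hx)
      psi_O := by
        obtain ⟨x, hx, hx'⟩ := p2
        exact ⟨x, (hO x).2 hx, hx'⟩ }
  exact ⟨k, inferInstance, hfin, c', e, r7, fun _ => rfl, rfl, fun m y => v4 m y⟩

end Pool.Agent.Helper42.QC
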